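import Pool.Agent.W142.TF.Stm4

set_option autoImplicit false
open Finset

/-! Project HF, part HF-ROB: Pollard's theorem implies the robust form of the Cauchy-Davenport theorem. -/

namespace Pool.Agent.W824.HF

open Pool.Agent.W142.TF

theorem rob (hpol : S_pol) : S_rob := by
  intro p hp A B R δ hδ hδ1 hA hB hbad
  have : NeZero p := ⟨hp.ne_zero⟩
  have hp0 : (0 : ℝ) < p := by exact_mod_cast hp.pos
  have hδp : 0 < δ * p := mul_pos hδ hp0
  have hδp1 : δ ^ 2 * p ≤ δ * p := by
    apply mul_le_mul_of_nonneg_right _ hp0.le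
    nlinarith
  set t : ℕ := ⌈δ * p⌉₊ with ht
  have ht1 : δ * p ≤ (t : ℝ) := Nat.le_ceil _
  have ht2 : (t : ℝ) < δ * p + 1 := Nat.ceil_lt_add_one hδp.le
  have ht0 : (0 : ℝ) < t := lt_of_lt_of_le hδp ht1
  have htB : t ≤ B.card := by
    have h1 : (t : ℝ) ≤ B.card := by linarith
    exact_mod_cast h1
  rcases lt_or_ge A.card t with hAt | hAt
  · -- few elements of A
    obtain ⟨a, ha⟩ := hA
    have h1 := hbad a ha
    have h2 : (B.filter (fun b => a - b ∈ R)).card ≤ R.card := by
      apply Finset.card_le_card_of_injOn (fun b => a - b)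
      · intro b hb
        have hb' := hb
        simp only [Finset.coe_filter, Set.mem_ofPred_eq] at hb'
        exact hb'.2
      · intro b _ b' _ h
        exact sub_right_injective h
    have h3 : (B.filter (fun b => a - b ∈ R)).card + (B.filter (fun b => a - b ∉ R)).card = B.card :=
      Finset.card_filter_add_card_filter_not (s := B) (fun b => a - b ∈ R)
    have h4 : (B.card : ℝ) ≤ R.card + δ * p := by
      have h5 : ((B.filter (fun b => a - b ∈ R)).card : ℝ) + (B.filter (fun b => a - b ∉ R)).card = B.card := by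
        exact_mod_cast h3
      have h6 : ((B.filter (fun b => a - b ∈ R)).card : ℝ) ≤ R.card := by exact_mod_cast h2
      linarith
    have h7 : (A.card : ℝ) + 1 ≤ t := by exact_mod_cast hAt
    have h8 : ((min p (A.card + B.card) : ℕ) : ℝ) ≤ (A.card : ℝ) + B.card := by
      have : min p (A.card + B.card) ≤ A.card + B.card := min_le_right _ _
      exact_mod_cast this
    linarith
  · -- many elements of A
    have h1 := hpol p hp A B t hAt htB
    set r : ZMod p → ℕ := fun d => ((A ×ˢ B).filter (fun x => x.1 - x.2 = d)).card with hr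
    have h2 : ∑ d : ZMod p, min t (r d) ≤ t * R.card + ∑ d ∈ univ \ R, r d := by
      rw [← Finset.sum_sdiff (Finset.subset_univ R), add_comm]
      apply add_le_add
      · calc ∑ d ∈ R, min t (r d) ≤ ∑ d ∈ R, t := Finset.sum_le_sum (fun d _ => min_le_left _ _)
          _ = t * R.card := by rw [Finset.sum_const, smul_eq_mul, mul_comm]
      · exact Finset.sum_le_sum (fun d _ => min_le_right _ _)
    have h3 : ∑ d ∈ univ \ R, r d = ((A ×ˢ B).filter (fun x => x.1 - x.2 ∉ R)).card := by
      rw [Finset.card_eq_sum_card_fiberwise (f := fun x : ZMod p × ZMod p => x.1 - x.2) (t := univ \ R)]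
      · apply Finset.sum_congr rfl
        intro d hd
        simp only [Finset.mem_sdiff, Finset.mem_univ, true_and] at hd
        simp only [hr]
        congr 1
        ext x
        simp only [Finset.mem_filter]
        constructor
        · rintro ⟨h, h'⟩
          exact ⟨⟨h, by rw [h']; exact hd⟩, h'⟩
        · rintro ⟨⟨h, _⟩, h'⟩
          exact ⟨h, h'⟩
      · intro x hx
        have hx' := hx
        simp only [Finset.coe_filter, Set.mem_ofPred_eq] at hx'
        simp [hx'.2]
    have h4 : ((A ×ˢ B).filter (fun x => x.1 - x.2 ∉ R)).card = ∑ a ∈ A, (B.filter (fun b => a - b ∉ R)).card := by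
      rw [Finset.card_filter, Finset.sum_product]
      apply Finset.sum_congr rfl
      intro a _
      rw [Finset.card_filter]
    have h5 : ((∑ a ∈ A, (B.filter (fun b => a - b ∉ R)).card : ℕ) : ℝ) ≤ δ ^ 2 * p ^ 2 := by
      push_cast
      calc ∑ a ∈ A, ((B.filter (fun b => a - b ∉ R)).card : ℝ) ≤ ∑ a ∈ A, δ ^ 2 * p :=
            Finset.sum_le_sum hbad
        _ = A.card * (δ ^ 2 * p) := by rw [Finset.sum_const, nsmul_eq_mul]
        _ ≤ p * (δ ^ 2 * p) := by
            apply mul_le_mul_of_nonneg_right _ (by positivity)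
            have : A.card ≤ p := by
              have h := Finset.card_le_univ A
              rwa [ZMod.card] at h
            exact_mod_cast this
        _ = δ ^ 2 * p ^ 2 := by ring
    have h6 : (t : ℝ) * (min p (A.card + B.card - t) : ℕ) ≤ t * R.card + δ ^ 2 * p ^ 2 := by
      have h7 : t * min p (A.card + B.card - t) ≤
          t * R.card + ∑ a ∈ A, (B.filter (fun b => a - b ∉ R)).card := by
        rw [← h4, ← h3]
        exact h1.trans h2
      have h8 : (t : ℝ) * (min p (A.card + B.card - t) : ℕ) ≤
          t * R.card + ((∑ a ∈ A, (B.filter (fun b => a - b ∉ R)).card : ℕ) : ℝ) := by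
        exact_mod_cast h7
      linarith
    have h9 : δ ^ 2 * (p : ℝ) ^ 2 ≤ t * (δ * p) := by
      have : δ ^ 2 * (p : ℝ) ^ 2 = (δ * p) * (δ * p) := by ring
      rw [this]
      exact mul_le_mul_of_nonneg_right ht1 hδp.le
    have h10 : ((min p (A.card + B.card - t) : ℕ) : ℝ) ≤ R.card + δ * p := by
      have h11 : (t : ℝ) * (min p (A.card + B.card - t) : ℕ) ≤ t * (R.card + δ * p) := by
        rw [mul_add]; linarith
      exact le_of_mul_le_mul_left h11 ht0
    have h12 : min p (A.card + B.card) ≤ min p (A.card + B.card - t) + t := by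
      omega
    have h13 : ((min p (A.card + B.card) : ℕ) : ℝ) ≤ ((min p (A.card + B.card - t) : ℕ) : ℝ) + t := by
      exact_mod_cast h12
    linarith

end Pool.Agent.W824.HF
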